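import Pool.Agent.Run7.h302.NC.Cfin

/-!
# Near-coincidences of powers of complex numbers

The related conjecture on the page says that complex numbers `α, β` with `|α|, |β| > 1` are
multiplicatively independent if and only if the number of the pairs `(n, m)` with
`|α ^ n - β ^ m| ≤ x` is asymptotic to `(log x) ^ 2 / (log |α| log |β|)`. We prove it for ALL moduli
`|α|, |β| > 1`, for instance `π` and `e`, if the arguments are `2 π t` and `2 π s` with real algebraic
numbers `t`, `s`, not both rational; the error term is then `O(log x)`. More generally `t` and `s` can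
be any real numbers, not both rational, such that the linear forms `n t - m s - k` are zero or at least
`c (|n| + |m| + 1) ^ (-κ)` in absolute value.

In particular, for all real `a, b > 1`, for instance `a = π`, `b = e`, the number of the pairs with
`|(a ζ) ^ n - b ^ m| ≤ x` is `(log x) ^ 2 / (log a log b) + O(log x)` if `ζ = e ^ (2 π i t)` with an
irrational algebraic number `t`, or `ζ = e ^ (i θ)` with an algebraic number `θ ≠ 0`. The question is
about `ζ = 1`. For arbitrary `α`, `β` the asymptotic formula for the moduli implies that for `α`, `β`.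
-/

set_option autoImplicit false

namespace Pool.Agent.Results.MP_606be1_nt.ComplexArguments

open Real Filter Asymptotics Topology

/-- multiplicative independence -/
def MultIndep (α β : ℂ) : Prop := ∀ n m : ℤ, α ^ n * β ^ m = 1 → n = 0 ∧ m = 0

/-- the pairs `(n, m)` of natural numbers with `|α ^ n - β ^ m| ≤ x` -/
def pairs (α β : ℂ) (x : ℝ) : Set (ℕ × ℕ) := {p | ‖α ^ p.1 - β ^ p.2‖ ≤ x}

/-- the asymptotic formula: the number of the pairs is finite and asymptotic to
`(log x) ^ 2 / (log |α| log |β|)` -/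
def Asymptotic (α β : ℂ) : Prop := (∀ x, (pairs α β x).Finite) ∧
  (fun x : ℝ => (((pairs α β x).ncard : ℕ) : ℝ)) ~[atTop]
    (fun x : ℝ => log x ^ 2 / (log ‖α‖ * log ‖β‖))

/-- the asymptotic formula with the error `O(log x)` -/
def WithError (α β : ℂ) : Prop := ∃ C : ℝ, ∀ x : ℝ, 2 ≤ x → (pairs α β x).Finite ∧
  |(((pairs α β x).ncard : ℕ) : ℝ) - log x ^ 2 / (log ‖α‖ * log ‖β‖)| ≤ C * log x

/-- the linear forms in `t`, `s`, `1` are zero or not too small -/
def Tame (t s : ℝ) : Prop := ∃ (κ : ℕ) (c : ℝ), 0 < c ∧ ∀ n m k : ℤ, (n : ℝ) * t - m * s - k ≠ 0 →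
  c ≤ (|(n : ℝ)| + |(m : ℝ)| + 1) ^ κ * |(n : ℝ) * t - m * s - k|

lemma example_irr {a b t : ℝ} (ha : 1 < a) (hb : 1 < b) (ht : Irrational t)
    (hT : Run7.h302.NC.Tame t 0) :
    WithError (a * Complex.exp (2 * π * t * Complex.I)) (b : ℂ) := by
  have ha0 : 0 < a := by linarith
  have hb0 : 0 < b := by linarith
  have hn : ‖(a : ℂ) * Complex.exp (2 * π * t * Complex.I)‖ = a := by
    rw [norm_mul, show (2 * π * t * Complex.I : ℂ) = ((2 * π * t : ℝ) : ℂ) * Complex.I by
      push_cast; ring, Complex.norm_exp_ofReal_mul_I, mul_one, Complex.norm_real,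
      Real.norm_of_nonneg ha0.le]
  have hnb : ‖(b : ℂ)‖ = b := by rw [Complex.norm_real, Real.norm_of_nonneg hb0.le]
  have h := Run7.h302.NC.related (α := (a : ℂ) * Complex.exp (2 * π * t * Complex.I))
    (β := (b : ℂ)) (t := t) (s := 0) (by rw [hn]; exact ha) (by rw [hnb]; exact hb)
    (by rw [hn]) (by rw [hnb]; simp) hT (Or.inl ht)
  refine (h.2.1 ?_).2
  rw [Run7.h302.NC.indep_iff (by rw [hn]; exact ha) (by rw [hnb]; exact hb)]
  exact Run7.h302.NC.indep_of_irr ha hb ht

/-- **Theorem.** (1) Let `α`, `β` be complex numbers with `|α|, |β| > 1` and arguments `2 π t`, `2 π s`,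
where `t` and `s` are real algebraic numbers, not both rational, or more generally real numbers, not
both rational, such that the linear forms in `t`, `s`, `1` are zero or not too small. Then `α`, `β` are
multiplicatively independent if and only if the number of the pairs `(n, m)` with
`|α ^ n - β ^ m| ≤ x` is asymptotic to `(log x) ^ 2 / (log |α| log |β|)`. If they are independent, then
the error is `O(log x)`, and there are only finitely many pairs with
`|α ^ n - β ^ m| < |α| ^ (n / 2)`; otherwise the number of the pairs is infinite for all `x ≥ 0`.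
(2) For all real `a, b > 1` the formula holds, with the error `O(log x)`, for
`α = a e ^ (2 π i t)`, `β = b`, if `t` is irrational and algebraic, or irrational and not a Liouville
number; and for `α = a e ^ (i θ)`, `β = b`, if `θ ≠ 0` is algebraic.
(3) For all `α`, `β` with `|α|, |β| > 1`: if the asymptotic formula holds for `|α|`, `|β|`, then it
holds for `α`, `β`. -/
theorem result :
    (∀ (α β : ℂ) (t s : ℝ), 1 < ‖α‖ → 1 < ‖β‖ →
      α = ‖α‖ * Complex.exp (2 * π * t * Complex.I) →
      β = ‖β‖ * Complex.exp (2 * π * s * Complex.I) →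
      (IsAlgebraic ℚ t ∧ IsAlgebraic ℚ s) ∨ Tame t s → Irrational t ∨ Irrational s →
      (MultIndep α β ↔ Asymptotic α β) ∧
      (MultIndep α β → WithError α β ∧
        {p : ℕ × ℕ | ‖α ^ p.1 - β ^ p.2‖ ^ 2 < ‖α‖ ^ p.1}.Finite) ∧
      (¬ MultIndep α β → ∀ x : ℝ, 0 ≤ x → (pairs α β x).Infinite)) ∧
    (∀ a b t : ℝ, 1 < a → 1 < b → Irrational t → IsAlgebraic ℤ t ∨ ¬ Liouville t →
      WithError (a * Complex.exp (2 * π * t * Complex.I)) b) ∧
    (∀ a b θ : ℝ, 1 < a → 1 < b → IsAlgebraic ℤ θ → θ ≠ 0 →
      WithError (a * Complex.exp (θ * Complex.I)) b) ∧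
    (∀ α β : ℂ, 1 < ‖α‖ → 1 < ‖β‖ → Asymptotic (‖α‖ : ℂ) (‖β‖ : ℂ) → Asymptotic α β) := by
  have tame0 : ∀ {t : ℝ}, Run7.h302.NC.Dioph t → Run7.h302.NC.Tame t 0 := by
    intro t h
    have := Run7.h302.NC.tame_of_dioph h 0
    rwa [Rat.cast_zero] at this
  refine ⟨?_, ?_, ?_, ?_⟩
  · intro α β t s ha hb hα hβ hT hirr
    have hT' : Run7.h302.NC.Tame t s := by
      rcases hT with h | h
      · exact Run7.h302.NC.tame_alg h.1 h.2
      · exact h
    obtain ⟨h1, h2, h3⟩ := Run7.h302.NC.related ha hb hα hβ hT' hirr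
    exact ⟨h1, fun h => ⟨(h2 h).2, (h2 h).1⟩, h3⟩
  · intro a b t ha hb ht h
    refine example_irr ha hb ht (tame0 (Run7.h302.NC.dioph_of ht fun hL => ?_))
    rcases h with h | h
    · exact hL.transcendental h
    · exact h hL
  · intro a b θ ha hb hθ hθ0
    have h1 := Run7.h302.NC.dioph_angle hθ hθ0
    have h2 := Run7.h302.NC.dioph_iff_irr h1
    have h3 := example_irr ha hb h2 (tame0 h1)
    have h4 : (2 * π * ((θ / (2 * π) : ℝ) : ℂ) * Complex.I : ℂ) = θ * Complex.I := by
      have hp : (π : ℂ) ≠ 0 := by exact_mod_cast pi_pos.ne'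
      push_cast
      field_simp
    rwa [h4] at h3
  · intro α β ha hb h
    exact Run7.h302.NC.of_moduli ha hb h

end Pool.Agent.Results.MP_606be1_nt.ComplexArguments
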