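import Pool.Agent.Run7.h302.NC.Final

/-!
# Near-coincidences between `c π ^ n` and `e ^ m`

Let `a > 1` be any real number, for instance `π`, and let `c` be a positive rational number different
from `1`, or `c = e ^ β` with an irrational algebraic number `β`. Then the number of the pairs `(n, m)`
with `n ≤ T` and `|c a ^ n - e ^ m| ≤ x` is `(log x) ^ 2 / log a + O(log x + h)` for all `T` between
`C log x` and the tower `2 ^ 2 ^ ... ^ 2` of height `h`; the question is about `c = 1` and `T = ∞`. The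
same is true for all `a, b > 1` and `c > 0` if `log c / log b` or `log c / log a` is irrational and not
a Liouville number, and for the pairs in any set `S`, with the number of the pairs of `S` in the box
`c a ^ n ≤ x`, `b ^ m ≤ x` as the main term and the same constant for all sets `S`.

For `c = 1` and all `a, b > 1` the last statement is proved for all sets `S` which have at most `k` pairs
on each line through the origin. In particular, the number of the coprime pairs `(n, m)` with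
`n ≤ 2 ^ 2 ^ ... ^ 2` (tower of height `log x`) and `|π ^ n - e ^ m| ≤ x` is asymptotic to
`(6 / π ^ 2) (log x) ^ 2 / log π`.
-/

set_option autoImplicit false

namespace Pool.Agent.Results.MP_606be1_nt.InhomogeneousNearCoincidences

open Real Filter Asymptotics Topology

/-- the tower `2 ^ 2 ^ ... ^ 2` of height `h` -/
def tower : ℕ → ℕ
  | 0 => 1
  | h + 1 => 2 ^ tower h

/-- the pairs `(n, m)` with `n ≤ T` and `|c a ^ n - b ^ m| ≤ x` -/
def pairs (a b c x T : ℝ) : Set (ℕ × ℕ) := {p | (p.1 : ℝ) ≤ T ∧ |c * a ^ p.1 - b ^ p.2| ≤ x}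

/-- the box: the pairs `(n, m)` with `c a ^ n ≤ x` and `b ^ m ≤ x` -/
def box (a b c x : ℝ) : Set (ℕ × ℕ) := {p | c * a ^ p.1 ≤ x ∧ b ^ p.2 ≤ x}

/-- the near misses: the pairs `(n, m)` with `|c a ^ n - b ^ m| < (c a ^ n) ^ (1/2)` -/
def nearMisses (a b c : ℝ) : Set (ℕ × ℕ) := {p | |c * a ^ p.1 - b ^ p.2| ^ 2 < c * a ^ p.1}

/-- each line through the origin contains at most `k` pairs of `S` -/
def FewOnLines (k : ℕ) (S : Set (ℕ × ℕ)) : Prop :=
  ∀ l : ℕ × ℕ, l.1.Coprime l.2 → ∀ F : Finset (ℕ × ℕ),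
    (∀ p ∈ F, p ∈ S ∧ ∃ g : ℕ, p = (g * l.1, g * l.2)) → F.card ≤ k

lemma tower_eq (h : ℕ) : tower h = Run7.h302.NC.tow h := by
  induction h with
  | zero => rfl
  | succ h ih => rw [tower, Run7.h302.NC.tow, ih]

lemma inter_pairs (S : Set (ℕ × ℕ)) (a b c x T : ℝ) : S ∩ pairs a b c x T =
    {p | p ∈ S ∧ (p.1 : ℝ) ≤ T ∧ |c * a ^ p.1 - b ^ p.2| ≤ x} := rfl

lemma inter_box (S : Set (ℕ × ℕ)) (a b c x : ℝ) : S ∩ box a b c x =
    {p | p ∈ S ∧ c * a ^ p.1 ≤ x ∧ b ^ p.2 ≤ x} := rfl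

/-- the conclusion for the pair `(a, b)` and the dilation `c` -/
def Formula (a b c C : ℝ) : Prop :=
  ∀ (x T : ℝ) (h : ℕ), 2 ≤ x → C * log x ≤ T → T ≤ tower h →
    |((pairs a b c x T).ncard : ℝ) - log x ^ 2 / (log a * log b)| ≤ C * (log x + h)

lemma formula_of_sepd {a b c : ℝ} (ha : 1 < a) (hb : 1 < b) (hc : 0 < c)
    (hS : Run7.h302.NC.Sepd a b c) : ∃ C : ℝ, Formula a b c C ∧
      (∀ h : ℕ, (nearMisses a b c ∩ {p | p.1 ≤ tower h}).Finite ∧
        ((nearMisses a b c ∩ {p | p.1 ≤ tower h}).ncard : ℝ) ≤ h + C) ∧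
      ∀ (S : Set (ℕ × ℕ)) (x T : ℝ) (h : ℕ), 2 ≤ x → C * log x ≤ T → T ≤ tower h →
        |((S ∩ pairs a b c x T).ncard : ℝ) - (S ∩ box a b c x).ncard| ≤ C * (log x + h) := by
  obtain ⟨C1, hC1, h1, h2⟩ := Run7.h302.NC.count_sepd ha hb hc hS
  obtain ⟨C2, hC2, h3⟩ := Run7.h302.NC.box_all ha hb hc
  have key : ∀ (S : Set (ℕ × ℕ)) (x T : ℝ) (h : ℕ), 2 ≤ x → (C1 + C2) * log x ≤ T →
      T ≤ tower h →
      |((S ∩ pairs a b c x T).ncard : ℝ) - (S ∩ box a b c x).ncard| ≤ C1 * (log x + h) := by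
    intro S x T h hx hT hTh
    have hlx : 0 ≤ log x := log_nonneg (by linarith)
    rw [tower_eq] at hTh
    rw [inter_pairs, inter_box]
    refine h2 S x T h hx ?_ hTh
    nlinarith
  refine ⟨C1 + C2, fun x T h hx hT hTh => ?_, fun h => ?_, fun S x T h hx hT hTh => ?_⟩
  · have h4 := key Set.univ x T h hx hT hTh
    have h5 := h3 x hx
    rw [Set.univ_inter, Set.univ_inter] at h4
    have h6 : (box a b c x).ncard = {p : ℕ × ℕ | c * a ^ p.1 ≤ x ∧ b ^ p.2 ≤ x}.ncard := rfl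
    rw [h6] at h4
    have hlx : 0 ≤ log x := log_nonneg (by linarith)
    have hh : (0 : ℝ) ≤ h := Nat.cast_nonneg _
    have h7 := abs_le.1 h4
    have h8 := abs_le.1 h5
    have h9 : 0 ≤ C2 * (h : ℝ) := by positivity
    rw [abs_le]
    constructor <;> nlinarith [h7.1, h7.2, h8.1, h8.2]
  · obtain ⟨h4, h5⟩ := h1 h
    rw [tower_eq]
    refine ⟨h4, ?_⟩
    have h6 : ((nearMisses a b c ∩ {p | p.1 ≤ Run7.h302.NC.tow h}).ncard : ℝ) ≤ h + C1 := h5
    linarith
  · have hlx : 0 ≤ log x := log_nonneg (by linarith)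
    have hh : (0 : ℝ) ≤ h := Nat.cast_nonneg _
    refine (key S x T h hx hT hTh).trans ?_
    exact mul_le_mul_of_nonneg_right (by linarith) (by linarith)

/-- **Theorem.** All sets of pairs in the statement are finite.
(1) Let `a > 1` (for instance `a = π`) and let `c` be a positive rational number `≠ 1`, or `c = e ^ β`
with an irrational algebraic number `β`. There is `C` such that for all `x ≥ 2` and all `T` between
`C log x` and the tower of height `h` the number of the pairs `(n, m)` with `n ≤ T` and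
`|c a ^ n - e ^ m| ≤ x` is `(log x) ^ 2 / log a`, up to an error `≤ C (log x + h)`.
(2) Let `a, b > 1` and `c > 0` be such that `log c / log b` or `log c / log a` is irrational and not a
Liouville number. Then the number of the pairs `(n, m)` with `n ≤ T` and `|c a ^ n - b ^ m| ≤ x` is
`(log x) ^ 2 / (log a log b)`, up to an error `≤ C (log x + h)`, for the same `x` and `T`; there are at
most `h + C` near misses `|c a ^ n - b ^ m| < (c a ^ n) ^ (1/2)` with `n` at most the tower of height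
`h`; and for every set `S` of pairs the number of the pairs in `S` with `n ≤ T` and
`|c a ^ n - b ^ m| ≤ x` is that of the pairs in `S` with `c a ^ n ≤ x` and `b ^ m ≤ x`, up to an error
`≤ C (log x + h)`, with `C` independent of `S`.
(3) Let `a, b > 1` and `c = 1`. For every `k` and every set `S` with at most `k` pairs on each line
through the origin, the number of the pairs in `S` with `n ≤ T` and `|a ^ n - b ^ m| ≤ x` is that of the
pairs in `S` with `a ^ n ≤ x` and `b ^ m ≤ x`, up to an error `≤ C (log x + k (h + 1))`, for the same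
`x` and `T`, with `C` independent of `k` and `S`.
(4) The number of the coprime pairs `(n, m)` with `n` at most the tower of height `⌊log x⌋` and
`|π ^ n - e ^ m| ≤ x` is asymptotic to `(6 / π ^ 2) (log x) ^ 2 / log π`. -/
theorem result :
    (∀ a b c x T : ℝ, 1 < a → 1 < b → 0 < c → 2 ≤ x →
      (pairs a b c x T).Finite ∧ (box a b c x).Finite) ∧
    (∀ a c : ℝ, 1 < a →
      (∃ q : ℚ, 0 < q ∧ q ≠ 1 ∧ c = q) ∨
        (∃ β : ℝ, Irrational β ∧ IsAlgebraic ℤ β ∧ c = exp β) →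
      ∃ C : ℝ, ∀ (x T : ℝ) (h : ℕ), 2 ≤ x → C * log x ≤ T → T ≤ tower h →
        |((pairs a (exp 1) c x T).ncard : ℝ) - log x ^ 2 / log a| ≤ C * (log x + h)) ∧
    (∀ a b c : ℝ, 1 < a → 1 < b → 0 < c →
      (Irrational (log c / log b) ∧ ¬ Liouville (log c / log b)) ∨
        (Irrational (log c / log a) ∧ ¬ Liouville (log c / log a)) →
      ∃ C : ℝ, Formula a b c C ∧
        (∀ h : ℕ, (nearMisses a b c ∩ {p | p.1 ≤ tower h}).Finite ∧
          ((nearMisses a b c ∩ {p | p.1 ≤ tower h}).ncard : ℝ) ≤ h + C) ∧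
        ∀ (S : Set (ℕ × ℕ)) (x T : ℝ) (h : ℕ), 2 ≤ x → C * log x ≤ T → T ≤ tower h →
          |((S ∩ pairs a b c x T).ncard : ℝ) - (S ∩ box a b c x).ncard| ≤ C * (log x + h)) ∧
    (∀ a b : ℝ, 1 < a → 1 < b → ∃ C : ℝ, ∀ (k : ℕ) (S : Set (ℕ × ℕ)), FewOnLines k S →
      ∀ (x T : ℝ) (h : ℕ), 2 ≤ x → C * log x ≤ T → T ≤ tower h →
        |((S ∩ pairs a b 1 x T).ncard : ℝ) - (S ∩ box a b 1 x).ncard| ≤
          C * (log x + k * (h + 1))) ∧
    (fun x : ℝ => (({p : ℕ × ℕ | p.1.Coprime p.2 ∧ p.1 ≤ tower ⌊log x⌋₊ ∧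
        |π ^ p.1 - exp 1 ^ p.2| ≤ x}.ncard : ℕ) : ℝ)) ~[atTop]
      (fun x : ℝ => 6 / π ^ 2 * log x ^ 2 / log π) := by
  have he : 1 < exp 1 := by
    rw [one_lt_exp_iff]
    exact one_pos
  refine ⟨?_, ?_, ?_, ?_, ?_⟩
  · intro a b c x T ha hb hc hx
    obtain ⟨C, -, h1⟩ := Run7.h302.NC.box_diff ha hb hc
    have h2 := h1 Set.univ x (max T (C * log x)) hx (le_max_right _ _)
    refine ⟨h2.1.subset ?_, h2.2.1.subset ?_⟩
    · rintro p ⟨h3, h4⟩
      exact ⟨trivial, h3.trans (le_max_left _ _), h4⟩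
    · rintro p ⟨h3, h4⟩
      exact ⟨trivial, h3, h4⟩
  · intro a c ha h
    have hcd : 0 < c ∧ Run7.h302.NC.Dioph (log c / log (exp 1)) := by
      rw [log_exp, div_one]
      rcases h with ⟨q, hq, hq1, rfl⟩ | ⟨β, hβ, hβ1, rfl⟩
      · exact ⟨by exact_mod_cast hq, Run7.h302.NC.dioph_log q hq hq1⟩
      · rw [log_exp]
        refine ⟨exp_pos _, Run7.h302.NC.dioph_of hβ fun hL => ?_⟩
        exact hL.transcendental hβ1
    obtain ⟨C, hC, -⟩ := formula_of_sepd ha he hcd.1 (Run7.h302.NC.sepd_of_b ha he hcd.1 hcd.2)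
    refine ⟨C, fun x T h hx hT hTh => ?_⟩
    have h1 := hC x T h hx hT hTh
    rwa [log_exp, mul_one] at h1
  · intro a b c ha hb hc h
    rcases h with h | h
    · exact formula_of_sepd ha hb hc
        (Run7.h302.NC.sepd_of_b ha hb hc (Run7.h302.NC.dioph_of h.1 h.2))
    · exact formula_of_sepd ha hb hc
        (Run7.h302.NC.sepd_of_a ha hb hc (Run7.h302.NC.dioph_of h.1 h.2))
  · intro a b ha hb
    obtain ⟨C, -, hC⟩ := Run7.h302.NC.count_lines ha hb
    refine ⟨C, fun k S hS x T h hx hT hTh => ?_⟩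
    rw [tower_eq] at hTh
    exact hC k S hS x T h hx hT hTh
  · have hpi : 1 < π := by linarith [pi_gt_three]
    have hlp : 0 < log π := log_pos hpi
    have h1 := Run7.h302.NC.coprime_count hpi he
    rw [log_exp, mul_one] at h1
    have h2 : (fun x : ℝ => (({p : ℕ × ℕ | p.1.Coprime p.2 ∧ p.1 ≤ tower ⌊log x⌋₊ ∧
        |π ^ p.1 - exp 1 ^ p.2| ≤ x}.ncard : ℕ) : ℝ)) =
        (fun x : ℝ => (({p : ℕ × ℕ | p.1.Coprime p.2 ∧ p.1 ≤ Run7.h302.NC.tow ⌊log x⌋₊ ∧
        |π ^ p.1 - exp 1 ^ p.2| ≤ x}.ncard : ℕ) : ℝ)) := by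
      funext x
      rw [tower_eq]
    rw [h2]
    have h3 : 6 / π ^ 2 / log π ≠ 0 := by positivity
    have h4 : (fun x : ℝ => 6 / π ^ 2 * log x ^ 2 / log π) =
        (fun x : ℝ => (6 / π ^ 2 / log π) * log x ^ 2) := by
      funext x
      ring
    rw [h4]
    have h5 : Tendsto (fun x : ℝ => (({p : ℕ × ℕ | p.1.Coprime p.2 ∧
        p.1 ≤ Run7.h302.NC.tow ⌊log x⌋₊ ∧
        |π ^ p.1 - exp 1 ^ p.2| ≤ x}.ncard : ℕ) : ℝ) / ((6 / π ^ 2 / log π) * log x ^ 2))
        atTop (𝓝 1) := by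
      have h6 := h1.div_const (6 / π ^ 2 / log π)
      rw [div_self h3] at h6
      refine h6.congr fun x => ?_
      rw [div_div, mul_comm (log x ^ 2)]
    refine (isEquivalent_iff_tendsto_one ?_).2 h5
    filter_upwards [eventually_gt_atTop (1 : ℝ)] with x hx
    have : 0 < log x := log_pos hx
    positivity

end Pool.Agent.Results.MP_606be1_nt.InhomogeneousNearCoincidences
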