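import Pool.Agent.Run7.h17.Dig9

/-!
# The asymptotic formula for `π` and almost every sparse perturbation of `e`

For an arbitrary real `a > 1` (for instance `π`) and `β = exp(y₀ + d X)` (for instance `y₀ = 1`, `d` small, so that `β` is a
perturbation of `e`), where `X = ∑ x_k b^(-k-1)` has random digits `x_k ∈ {0, 1}` which are `1` only with
probability at least `3 / (k + 1)` (so that about `3 log N` of the first `N` digits need be nonzero), almost surely the number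
of the pairs `(n, m)` with `|a ^ n - β ^ m| ≤ x` is `(log x)² / (log a log β) + O(log x)`.
-/

set_option autoImplicit false

namespace Pool.Agent.Results.MP_606be1_nt.SparseRandomBases

open MeasureTheory ProbabilityTheory Finset Filter Topology

/-- the number `∑ x_k b^(-k-1)` with the digits `x_k ∈ {0, 1}` -/
noncomputable def num (b : ℕ) (x : ℕ → Bool) : ℝ := ∑' k : ℕ, if x k = true then ((b : ℝ)⁻¹) ^ (k + 1) else 0

/-- the pairs of natural numbers `(n, m)` with `|a ^ n - β ^ m| ≤ x` -/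
def pairs (a β x : ℝ) : Set (ℕ × ℕ) := {p | |a ^ p.1 - β ^ p.2| ≤ x}

/-- for some `C` the number of the pairs is `(log x)² / (log a log β)` up to `C log x`, for all `x ≥ 2` -/
def Formula (a β : ℝ) : Prop := ∃ C : ℝ, ∀ x : ℝ, 2 ≤ x → (pairs a β x).Finite ∧
  |((pairs a β x).ncard : ℝ) - Real.log x ^ 2 / (Real.log a * Real.log β)| ≤ C * Real.log x

lemma pairs_swap (a β x : ℝ) : pairs β a x = Prod.swap '' pairs a β x := by
  ext ⟨n, m⟩
  simp only [pairs, Set.mem_image, Set.mem_ofPred_eq, Prod.exists, Prod.swap_prod_mk, Prod.mk.injEq]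
  constructor
  · intro h
    exact ⟨m, n, by rwa [abs_sub_comm], rfl, rfl⟩
  · rintro ⟨m', n', h, rfl, rfl⟩
    rwa [abs_sub_comm]

lemma Formula.swap {a β : ℝ} (h : Formula a β) : Formula β a := by
  obtain ⟨C, hC⟩ := h
  refine ⟨C, fun x hx => ?_⟩
  obtain ⟨h1, h2⟩ := hC x hx
  rw [pairs_swap]
  refine ⟨h1.image _, ?_⟩
  rw [Set.ncard_image_of_injective _ Prod.swap_injective, mul_comm (Real.log β)]
  exact h2

theorem result :
    -- almost surely
    (∀ b : ℕ, 2 ≤ b → ∀ a y₀ d : ℝ, 1 < a → 0 < y₀ → 0 < d →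
      ∀ (Ω : Type) [MeasurableSpace Ω] (μ : Measure Ω) [IsProbabilityMeasure μ] (ξ : ℕ → Ω → Bool),
      (∀ k, Measurable (ξ k)) → iIndepFun ξ μ → ∀ k₀ : ℕ,
      (∀ k : ℕ, k₀ ≤ k → 3 / ((k : ℝ) + 1) ≤ μ.real {ω | ξ k ω = true} ∧
        μ.real {ω | ξ k ω = true} ≤ 1 - 3 / ((k : ℝ) + 1)) →
      ∀ᵐ ω ∂μ, Formula a (Real.exp (y₀ + d * num b fun k => ξ k ω)) ∧ Formula (Real.exp (y₀ + d * num b fun k => ξ k ω)) a) ∧
    -- numbers with few nonzero digits
    (∀ b : ℕ, 2 ≤ b → ∀ a y₀ d : ℝ, 1 < a → 0 < y₀ → 0 < d → ∀ ε : ℝ, 0 < ε →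
      ∃ x : ℕ → Bool,
        (∃ C : ℝ, ∀ N : ℕ, 1 ≤ N → (((range N).filter fun k => x k = true).card : ℝ) ≤ C * (N : ℝ) ^ ε) ∧
        Formula a (Real.exp (y₀ + d * num b x)) ∧ Formula (Real.exp (y₀ + d * num b x)) a) := by
  have hnum : ∀ (b : ℕ) (x : ℕ → Bool), Pool.Agent.Run7.h17.Dig.XI (Pool.Agent.Run7.h17.Dig.bi b) 0 x = 0 + num b x :=
    fun b x => rfl
  have hF : ∀ (b : ℕ) (a y₀ d : ℝ) (x : ℕ → Bool),
      (∃ C : ℝ, ∀ X : ℝ, 2 ≤ X → (Pool.Agent.H491R3.PE.NS a (Real.exp (y₀ + d * Pool.Agent.Run7.h17.Dig.XI (Pool.Agent.Run7.h17.Dig.bi b) 0 x)) X).Finite ∧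
        |((Pool.Agent.H491R3.PE.NS a (Real.exp (y₀ + d * Pool.Agent.Run7.h17.Dig.XI (Pool.Agent.Run7.h17.Dig.bi b) 0 x)) X).ncard : ℝ) -
          Real.log X ^ 2 / (Real.log a * (y₀ + d * Pool.Agent.Run7.h17.Dig.XI (Pool.Agent.Run7.h17.Dig.bi b) 0 x))| ≤ C * Real.log X) →
      Formula a (Real.exp (y₀ + d * num b x)) := by
    intro b a y₀ d x h
    rw [hnum, zero_add] at h
    unfold Formula
    rw [Real.log_exp]
    exact h
  refine ⟨?_, ?_⟩
  · intro b hb a y₀ d ha hy hd Ω _ μ _ ξ hm hi k₀ hp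
    filter_upwards [Pool.Agent.Run7.h17.Dig.formula_as hm hi hb hp ha hy hd] with ω hω
    have h1 := hF b a y₀ d (fun k => ξ k ω) hω
    exact ⟨h1, h1.swap⟩
  · intro b hb a y₀ d ha hy hd ε hε
    obtain ⟨x, hx1, hx2⟩ := Pool.Agent.Run7.h17.Dig.formula_det hb ha hy hd hε
    have h1 := hF b a y₀ d x hx2
    exact ⟨x, hx1, h1, h1.swap⟩

end Pool.Agent.Results.MP_606be1_nt.SparseRandomBases
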